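import Mathlib
import Pool.Agent.Lib.MP_36f7ac_an.Defs
import Pool.Agent.Lib.MP_36f7ac_an.Proof

open Pool.Agent.Lib.MP_36f7ac_an

namespace Pool.Agent.Results.MP_36f7ac_an.AllFourFail

/-- One pair of finite nonempty sets of real matrices for which all four Berger–Wang-type
identities `μ = μ̂`, `η = η̂`, `μ = μ̌`, `η = η̌` fail, whatever matrix norm is used. -/
theorem result : ∃ N : ℕ, 1 ≤ N ∧ ∃ 𝒜 ℬ : Finset (Matrix (Fin N) (Fin N) ℝ),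
    𝒜.Nonempty ∧ ℬ.Nonempty ∧ ∀ nrm : Matrix (Fin N) (Fin N) ℝ → ℝ, IsMatrixNorm nrm →
      muHat 𝒜 ℬ < mu nrm 𝒜 ℬ ∧ etaHat 𝒜 ℬ < eta nrm 𝒜 ℬ ∧
      muCheck 𝒜 ℬ < mu nrm 𝒜 ℬ ∧ etaCheck 𝒜 ℬ < eta nrm 𝒜 ℬ :=
  ⟨6, main.1, setA, setB, main.2⟩

end Pool.Agent.Results.MP_36f7ac_an.AllFourFail
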